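import Pool.Agent.Lib.MP_b5021c_nt.IfaceE6
import Pool.Agent.Lib.MP_b5021c_nt.K.H31.Clo
import Pool.Agent.Lib.MP_b5021c_nt.E.H56.T2o

/-!
# MP_b5021c_nt, stage 3, chapter E6, row E6_SCV: the second closing of the window
-/

namespace Pool.Agent.B5.H91

open scoped LaurentPolynomial
open Polynomial Pool.Agent.B5 Pool.Agent.B5.Clo

/-- Class `V` over the integers: the number is at least two if it is larger than one. -/
theorem two_le_of_classV {N : ℝ} {Q : RO ℤ} (h : ClassV N Q) (h1 : 1 < N) : 2 ≤ N := by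
  obtain ⟨-, n, q, -, hq, -⟩ := h
  have h2 : ‖((q.coeff 0 : ℤ) : ℂ)‖ = N := hq
  rw [Complex.norm_intCast] at h2
  rw [← h2] at h1 ⊢
  have h3 : (1 : ℤ) < |q.coeff 0| := by exact_mod_cast h1
  have h4 : (2 : ℤ) ≤ |q.coeff 0| := h3
  exact_mod_cast h4

/-- (SCV) a closing in class `V(N)` with the constant coefficient of class `V(N - 1)` and rank at
least `2 (N - 1)`. -/
theorem scv (hFD : FDS) (hE1 : E1S) (hMV : MVS) (hMm : MmulS) (hLs : LsdS) (hG1 : G1pS)
    (hG4 : G4S) (hRk : RkS) (hNur : NurS) : ScvS := by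
  classical
  intro P L _ _ _ _ _ phi D S i0 h eta N hD hr hR hI hN hV hV' hrk hrk1 hB
  obtain ⟨mv1, -⟩ := hMV ℤ
  obtain ⟨mm1, mm2, mm3⟩ := hMm ℤ
  have hV0 := mv1 _ _ hV'
  have cc : CC phi D S i0 eta := ⟨hD, by omega, hR, h, hV0.1⟩
  obtain ⟨c, n, G, fd⟩ := hFD ℤ P L phi D S i0 eta h cc
  -- the kernel meets the line of `S` trivially
  have key : ∀ a : Ker (co phi i0), (∀ j, phi S j = 0 → phi (a : L) j = 0) → a = 0 := by
    intro a ha
    obtain ⟨k, hk⟩ := hI (a : L) ha
    have h1 : co phi i0 (a : L) = 0 := a.2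
    rw [hk, map_zsmul, h, smul_eq_mul, mul_one] at h1
    apply Subtype.ext
    rw [hk, h1, zero_smul]
    rfl
  -- no pure factors
  have nopure : ∀ l, ¬ Pure phi S i0 (G l) := by
    intro l hl
    obtain ⟨a, ha, b, hb, hab⟩ := fd.wd l
    apply hab
    have h1 : a = 0 := key a fun j hj => hl a ha j (by
      unfold OO
      exact Finset.mem_filter.mpr ⟨Finset.mem_univ _, hj⟩)
    have h2 : b = 0 := key b fun j hj => hl b hb j (by
      unfold OO
      exact Finset.mem_filter.mpr ⟨Finset.mem_univ _, hj⟩)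
    rw [h1, h2]
  -- measures
  have hV2 := hV'
  rw [fd.v00] at hV2
  obtain ⟨Nc, Np, hc, hp, hNN⟩ := (hE1 ℤ).1 _ _ _ hV2
  obtain ⟨hGi, hNp⟩ := classV_prod hE1 hMV hMm (fun i => (G i).coeff 0) Finset.univ Np hp
  have hMc : M c = Nc := (mv1 _ _ hc).2
  have hone : ∀ i, 1 ≤ M ((G i).coeff 0) := fun i => (hGi i (Finset.mem_univ i)).1
  have hlsd := hLs ℤ P L phi D S i0 eta h c n G fd
  rw [hV0.2, (mv1 _ _ hV).2] at hlsd
  have hg1 := hG1 ℤ P L phi D S i0 eta h c n G fd (fun i b _ hq _ _ => nopure i hq)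
  have hg1' : (rk (supp (cl (co phi i0) S h eta D)) : ℝ) ≤
      ∑ i ∈ big G, (rk (supp (G i)) : ℝ) + ((snp phi S i0 G).card : ℝ) := by
    exact_mod_cast hg1
  have hbsum : ∑ i ∈ big G, (rk (supp (G i)) : ℝ) ≤
      ∑ i ∈ big G, (2 * max 1 (M ((G i).coeff 0)) + 4800) := by
    refine Finset.sum_le_sum fun i _ => ?_
    refine (hG4 ℤ P L phi D S i0 eta h c n G fd i).1 (M ((G i).coeff 0)) _
      (hGi i (Finset.mem_univ i)) ?_ ?_
    · have := le_max_left 1 (M ((G i).coeff 0))
      linarith
    · intro N' hN' P' L' _ _ _ _ _ phi' D' hD' hcl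
      refine (hB N' P' L' phi' D' hD' hcl).trans ?_
      have := max_le_max (le_refl (1 : ℝ)) hN'
      linarith
  -- the product over the big factors is the whole product
  have hbigp : ∏ i ∈ big G, M ((G i).coeff 0) = Np := by
    rw [hNp]
    refine Finset.prod_subset (Finset.subset_univ _) fun i _ hi => ?_
    have h1 : ¬ 1 < M ((G i).coeff 0) := fun h2 => hi (by
      unfold big
      exact Finset.mem_filter.mpr ⟨Finset.mem_univ _, h2⟩)
    exact le_antisymm (not_lt.mp h1) (hone i)
  rw [hbigp] at hlsd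
  have hNp1 : 1 ≤ Np := hp.1
  have hNc1 : 1 ≤ Nc := hc.1
  have hNpN : Np ≤ N - 1 := by
    rw [hNN]
    nlinarith
  -- the numbers
  have hm0 : 1 ≤ (big G).card := by
    rcases Nat.eq_zero_or_pos (big G).card with h0 | h0
    · exfalso
      have h1 : big G = ∅ := Finset.card_eq_zero.mp h0
      rw [h1, Finset.sum_empty, zero_add] at hg1'
      rw [h1, Finset.prod_empty] at hbigp
      rw [← hbigp, mul_one] at hlsd
      linarith
    · exact h0
  have hnum : ¬ ((big G).card = 1 → Np ≤ 997 / 1000 * N) := by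
    intro hm1
    have hprod : ∏ k : Fin (big G).card, M ((G ((big G).equivFin.symm k)).coeff 0) =
        ∏ i ∈ big G, M ((G i).coeff 0) := by
      rw [← Finset.prod_coe_sort (big G)]
      exact (big G).equivFin.symm.prod_comp fun i : (big G) => M ((G i).coeff 0)
    have hsum : ∑ k : Fin (big G).card,
        (2 * max 1 (M ((G ((big G).equivFin.symm k)).coeff 0)) + 4800) =
        ∑ i ∈ big G, (2 * max 1 (M ((G i).coeff 0)) + 4800) := by
      rw [← Finset.sum_coe_sort (big G)]
      exact (big G).equivFin.symm.sum_comp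
        fun i : (big G) => 2 * max 1 (M ((G i).coeff 0)) + 4800
    have h1 := hNur N (big G).card (snp phi S i0 G).card 0
      (fun k => M ((G ((big G).equivFin.symm k)).coeff 0)) hN hm0 ?_ ?_ ?_ ?_ (Or.inl (by omega))
    · rw [hsum, Nat.cast_zero, add_zero] at h1
      linarith
    · intro k
      have hk := ((big G).equivFin.symm k).2
      unfold big at hk
      rw [Finset.mem_filter] at hk
      exact two_le_of_classV (hGi _ (Finset.mem_univ _)) hk.2
    · rw [hprod, hbigp]
      linarith
    · rw [hprod, hbigp]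
      exact hm1
    · rw [hprod, hbigp]
      linarith
  rw [Classical.not_imp, not_le] at hnum
  obtain ⟨hm1, hNp2⟩ := hnum
  have hNc : Nc = 1 := by
    by_contra h1
    have h2 : 2 ≤ Nc := two_le_of_classV hc (lt_of_le_of_ne hNc1 (Ne.symm h1))
    nlinarith
  by_cases hs : (snp phi S i0 G).Nonempty
  · left
    exact ⟨c, n, G, fd, by rw [hMc, hNc], hs⟩
  · right
    rw [Finset.not_nonempty_iff_eq_empty] at hs
    have hbig : big G = Finset.univ := by
      refine Finset.eq_univ_of_forall fun l => ?_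
      unfold big
      refine Finset.mem_filter.mpr ⟨Finset.mem_univ _, ?_⟩
      by_contra hl
      have h1 : l ∈ snp phi S i0 G := by
        unfold snp
        exact Finset.mem_filter.mpr ⟨Finset.mem_univ _, hl, nopure l⟩
      rw [hs] at h1
      exact absurd h1 (Finset.notMem_empty _)
    have hn1 : n = 1 := by
      rw [hbig, Finset.card_univ, Fintype.card_fin] at hm1
      exact hm1
    subst hn1
    have hprod : cl (co phi i0) S h eta D = cst c * G 0 := by
      rw [fd.eq, Fin.prod_univ_one]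
    have h3 : supp (cl (co phi i0) S h eta D) = supp (G 0) := by
      rw [hprod, H56.supp_cst_mul fd.c0]
    rw [Fin.prod_univ_one] at hp
    have hk0 : co phi i0 ≠ 0 := by
      intro h0
      rw [h0] at h
      exact absurd h (by simp)
    have hcod := (hRk L L).1 (co phi i0) hk0
    refine ⟨c, G 0, ?_, hprod, ⟨?_, ?_, fd.st 0, fd.un 0, fd.irr 0, ?_⟩, ?_⟩
    · rw [← hNc]
      exact hc
    · rw [injective_iff_map_eq_zero]
      intro a ha
      apply key
      intro j hj
      have h4 : phO phi S i0 a j = 0 := by rw [ha]; rfl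
      change (if phi S j = 0 then phi (a : L) j else 0) = 0 at h4
      rw [if_pos hj] at h4
      exact h4
    · intro a ha j
      change (if phi S j = 0 then phi (a : L) j else 0) = 0 ∨
        (if phi S j = 0 then phi (a : L) j else 0) = 1
      by_cases hj : phi S j = 0
      · rw [if_pos hj]
        exact (fd.ww 0 a ha).1 j (by
          unfold OO
          exact Finset.mem_filter.mpr ⟨Finset.mem_univ _, hj⟩)
      · left
        rw [if_neg hj]
    · rw [← h3]
      omega
    · have h5 : N - 1 = Np := by rw [hNN, hNc, one_mul]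
      rw [h5]
      exact hp

end Pool.Agent.B5.H91
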